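import Pool.Agent.CRL.All
import Pool.Agent.CRN.All
import Pool.Agent.CRN.P_SERW
import Pool.Agent.CRN.P_G2
import Pool.Agent.SLog.All

set_option autoImplicit false

/-! MP_ee701d_an: all dimensions `n ≥ 2`; the maximal ball partial sums of functions which are series of functions of
bounded angular degree, no regularity in the radial direction: doubly logarithmic weight in the plane, logarithmic weight
in `ℝⁿ`, `n ≥ 3`. -/

namespace Pool.Agent.Results.MP_ee701d_an.AngularRegularity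

open MeasureTheory FourierTransform Filter Topology Pool.Agent.MBS
open scoped ENNReal NNReal

/-- the rotation by the angle `φ` in the plane of the coordinates `i` and `j` -/
noncomputable def rot {n : ℕ} (i j : Fin n) (φ : ℝ) (y : E n) : E n :=
  WithLp.toLp 2 (fun k => if k = i then Real.cos φ * y i - Real.sin φ * y j
    else if k = j then Real.sin φ * y i + Real.cos φ * y j else y k)

/-- angular degree at most `K`: for every point `y` and every coordinate plane `(i, j)` the function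
`φ ↦ f (rot i j φ y)` is a trigonometric polynomial of degree at most `K` -/
def AngDeg {n : ℕ} (K : ℕ) (f : E n → ℂ) : Prop := ∀ i j : Fin n, i ≠ j → ∀ y : E n,
  ∃ c : ℤ → ℂ, ∀ φ : ℝ, f (rot i j φ y) =
    ∑ k ∈ Finset.Icc (-(K : ℤ)) K, c k * Complex.exp ((k * φ : ℝ) * Complex.I)

/-- the weight: doubly logarithmic in the plane, logarithmic in higher dimensions -/
noncomputable def W (n : ℕ) (K : ℕ) : ℝ :=
  if n = 2 then Real.log (3 + Real.log (3 + K)) ^ (13 / 2 : ℝ) else Real.log (2 + K)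

theorem angDeg_iff {n : ℕ} (K : ℕ) (f : E n → ℂ) : AngDeg K f ↔ Pool.Agent.CRN.AD K f := Iff.rfl

theorem one_le_W2 (K : ℕ) : (1 : ℝ) ≤ Real.log (3 + Real.log (3 + K)) ^ (13 / 2 : ℝ) := by
  have h3 : (1 : ℝ) ≤ Real.log 3 := by
    rw [Real.le_log_iff_exp_le (by norm_num)]
    have := Real.exp_one_lt_d9
    linarith
  have hK : (0 : ℝ) ≤ K := Nat.cast_nonneg K
  have h1 : (0 : ℝ) ≤ Real.log (3 + K) := Real.log_nonneg (by linarith)
  have h2 : (1 : ℝ) ≤ Real.log (3 + Real.log (3 + K)) :=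
    h3.trans (Real.log_le_log (by norm_num) (by linarith))
  exact Real.one_le_rpow h2 (by norm_num)

theorem result : ∀ n : ℕ, 2 ≤ n → ∃ C : ℝ≥0, ∀ (f : E n → ℂ) (g : ℕ → E n → ℂ) (K : ℕ → ℕ),
    Measurable f → Integrable f → MemLp f 2 →
    (∀ j, Measurable (g j) ∧ Integrable (g j) ∧ MemLp (g j) 2) →
    (∀ j, 1 ≤ K j ∧ AngDeg (K j) (g j)) →
    Tendsto (fun J => ∫⁻ x, ‖f x - ∑ j ∈ Finset.range J, g j x‖ₑ ^ 2) atTop (𝓝 0) →
    (∫⁻ x, Sstar f x ^ 2) ^ (1 / 2 : ℝ) ≤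
      C * ∑' j : ℕ, ENNReal.ofReal (W n (K j)) * (∫⁻ x, ‖g j x‖ₑ ^ 2) ^ (1 / 2 : ℝ) ∧
    ((∑' j : ℕ, ENNReal.ofReal (W n (K j)) *
        (∫⁻ x, ‖g j x‖ₑ ^ 2) ^ (1 / 2 : ℝ)) ≠ ⊤ →
      ∀ᵐ x, Tendsto (fun R : ℝ => S f R x) atTop (𝓝 (f x))) := by
  intro n hn
  rcases eq_or_ne n 2 with rfl | h
  · have hL : Pool.Agent.CRL.T_LLL := by
      obtain ⟨C, hC⟩ := Pool.Agent.SEnd.fFA1s
      exact ⟨C, fun g x0 hg => hC g x0 hg⟩
    have hG := Pool.Agent.CRN.p_G2 Pool.Agent.CRL.q_GLBS Pool.Agent.CRL.q_MODB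
      Pool.Agent.CRL.q_CARLS hL
    obtain ⟨C, hC⟩ := Pool.Agent.CRN.p_SERW 2
      (fun K => Real.log (3 + Real.log (3 + K)) ^ (13 / 2 : ℝ)) le_rfl
      (fun K _ => one_le_W2 K) hG
    refine ⟨C, fun f g K h1 h2 h3 h4 h5 h6 => ?_⟩
    have := hC f g K ⟨h1, h2, h3⟩ (fun j => ⟨(h4 j).1, (h4 j).2.1, (h4 j).2.2⟩)
      (fun j => (h5 j).1) (fun j => (h5 j).2) h6
    simpa only [W, if_true] using this
  · obtain ⟨C, hC⟩ := Pool.Agent.CRN.q_SERN Pool.Agent.CRN.q_CARLS n hn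
    refine ⟨C, fun f g K h1 h2 h3 h4 h5 h6 => ?_⟩
    have := hC f g K ⟨h1, h2, h3⟩ (fun j => ⟨(h4 j).1, (h4 j).2.1, (h4 j).2.2⟩)
      (fun j => (h5 j).1) (fun j => (h5 j).2) h6
    simpa only [W, h, if_false] using this

end Pool.Agent.Results.MP_ee701d_an.AngularRegularity
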