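import Pool.Agent.SLog.All

set_option autoImplicit false

/-! MP_ee701d_an: the maximal Bochner-Riesz operator of order `δ`, `0 < δ ≤ 1`, in the plane,
`B^δ_* f (x) = sup_R |∫_{|ξ| ≤ R} (1 - |ξ|²/R²)^δ f^(ξ) e^{2πi x·ξ} dξ|`, is bounded on `L²` with
norm at most `C (log(3 + 1/δ))⁶`. -/

namespace Pool.Agent.Results.MP_ee701d_an.BochnerRieszMax

open MeasureTheory FourierTransform Pool.Agent.MBS
open scoped ENNReal NNReal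

theorem result : ∃ C : ℝ≥0, ∀ (δ : ℝ) (f : E 2 → ℂ), 0 < δ → δ ≤ 1 →
    Measurable f → Integrable f → MemLp f 2 →
    ∫⁻ x, (⨆ (R : ℝ) (_ : 0 < R), ‖∫ ξ in Metric.closedBall (0 : E 2) R,
        (((1 - ‖ξ‖ ^ 2 / R ^ 2) ^ δ : ℝ) : ℂ) * (𝓕 f ξ * ex x ξ)‖ₑ) ^ 2 ≤
      C * ENNReal.ofReal (Real.log (3 + δ⁻¹) ^ 12) * ∫⁻ x, ‖f x‖ₑ ^ 2 :=
  Pool.Agent.SEnd.fBRs

end Pool.Agent.Results.MP_ee701d_an.BochnerRieszMax
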