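import Pool.Agent.KSP.All2

set_option autoImplicit false

/-! MP_ee701d_an: in the plane,
`∫_B sup_R |∫_{|ξ| ≤ R} g(ξ) e^{2πi x·ξ} dξ|² dx ≤ C ∫ |g(ξ)|² log(3+|ξ|) (log(3+log(3+|ξ|)))⁵ dξ`
for every disc `B` of radius `1` and every measurable `g`. -/

namespace Pool.Agent.Variants.MP_ee701d_an.HalfLogLocal

open MeasureTheory Pool.Agent.MBS
open scoped ENNReal NNReal

theorem result : ∃ C : ℝ≥0, ∀ (g : E 2 → ℂ) (x0 : E 2), Measurable g →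
    ∫⁻ x in Metric.closedBall x0 1,
        (⨆ (R : ℝ) (_ : 0 < R), ‖∫ ξ in Metric.closedBall (0 : E 2) R, g ξ * ex x ξ‖ₑ) ^ 2 ≤
      C * ∫⁻ ξ, ‖g ξ‖ₑ ^ 2 *
        ENNReal.ofReal (Real.log (3 + ‖ξ‖) * Real.log (3 + Real.log (3 + ‖ξ‖)) ^ 5) :=
  Pool.Agent.KSP.fFA1

end Pool.Agent.Variants.MP_ee701d_an.HalfLogLocal
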