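import Pool.Agent.MBS.All

set_option autoImplicit false

/-! MP_ee701d_an: `‖S^* f‖₂ ≤ C ‖f‖₂` for nonnegative `f` all of whose superlevel sets `E_l = {f > l}`
satisfy `|E_l Δ (E_l - h)| ≤ A |h|^δ |E_l|^{1 - δ/n}`, i.e. have a (fractional) isoperimetric quotient
at most `A`; `C` depends on `n, δ, A` only. -/

namespace Pool.Agent.Variants.MP_ee701d_an.IsoperimetricLevels

open MeasureTheory Pool.Agent.MBS
open scoped ENNReal NNReal

theorem result (n : ℕ) (δ A : ℝ) (hn : 1 ≤ n) (hδ : 0 < δ) (hδ1 : δ ≤ 1) (hA : 0 < A) :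
    ∃ C : ℝ≥0, ∀ f : E n → ℝ, Measurable f → Integrable f → (∀ x, 0 ≤ f x) →
      (∀ (l : ℝ) (h : E n), 0 < l →
        volume (symmDiff {x | l < f x} {x | l < f (x + h)}) ≤
          ENNReal.ofReal (A * ‖h‖ ^ δ * (volume {x | l < f x}).toReal ^ (1 - δ / n))) →
      ∫⁻ x, Sstar (fun y => (f y : ℂ)) x ^ 2 ≤ C * ∫⁻ x, ENNReal.ofReal (f x) ^ 2 :=
  fI n δ A hn hδ hδ1 hA

end Pool.Agent.Variants.MP_ee701d_an.IsoperimetricLevels
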