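import Pool.Agent.CRF.All

set_option autoImplicit false

/-! MP_ee701d_an: in the plane, local maximal inequality and a.e. convergence for the disc partial sums with a doubly
logarithmic weight in the distance of the frequency to the union of finitely many lines through the origin. -/

namespace Pool.Agent.Results.MP_ee701d_an.LogLogLines

open MeasureTheory FourierTransform Filter Topology Pool.Agent.MBS
open scoped ENNReal NNReal

/-- distance of `ξ` from the union of the lines `ℝ e`, `e ∈ D` (unit vectors) -/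
noncomputable def dist (D : Finset (E 2)) (h : D.Nonempty) (ξ : E 2) : ℝ :=
  D.inf' h (fun e => ‖ξ - (inner ℝ e ξ : ℝ) • e‖)

theorem result :
    (∃ C : ℝ≥0, ∀ (D : Finset (E 2)) (h : D.Nonempty) (g : E 2 → ℂ) (x0 : E 2),
      (∀ e ∈ D, ‖e‖ = 1) → Measurable g →
      ∫⁻ x in Metric.closedBall x0 1,
          (⨆ (R : ℝ) (_ : 0 < R), ‖∫ ξ in Metric.closedBall (0 : E 2) R, g ξ * ex x ξ‖ₑ) ^ 2 ≤
        C * D.card * ∫⁻ ξ, ‖g ξ‖ₑ ^ 2 *
          ENNReal.ofReal (Real.log (3 + Real.log (3 + dist D h ξ)) ^ 12)) ∧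
    ∀ (D : Finset (E 2)) (h : D.Nonempty) (f : E 2 → ℂ), (∀ e ∈ D, ‖e‖ = 1) →
      Measurable f → Integrable f → MemLp f 2 →
      ∫⁻ ξ, ‖𝓕 f ξ‖ₑ ^ 2 *
        ENNReal.ofReal (Real.log (3 + Real.log (3 + dist D h ξ)) ^ 11) ≠ ⊤ →
      ∀ᵐ x, Tendsto (fun R : ℝ => S f R x) atTop (𝓝 (f x)) := by
  refine ⟨?_, fun D h f h1 h2 h3 h4 h5 => ?_⟩
  · exact Pool.Agent.CRF.q_FFS Pool.Agent.CRN.q_CARLS Pool.Agent.CRF.q_LLL
  · exact Pool.Agent.CRF.q_FFW Pool.Agent.CRN.q_CARLS Pool.Agent.CRF.q_LLW D h f h1 ⟨h2, h3, h4⟩ h5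

end Pool.Agent.Results.MP_ee701d_an.LogLogLines
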