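import Pool.Agent.SLog.All

set_option autoImplicit false

/-! MP_ee701d_an: in the plane, for every disc `B` of radius `1` and every measurable `g`,
`∫_B sup_R |∫_{|ξ| ≤ R} g(ξ) e^{2πi x·ξ} dξ|² dx ≤ C ∫ |g(ξ)|² (log(3+log(3+|ξ|)))¹² dξ`,
and `S_R f → f` almost everywhere if `∫ |f^|² (log(3+log(3+|ξ|)))¹¹ < ∞`. -/

namespace Pool.Agent.Results.MP_ee701d_an.LogLogLocal

open MeasureTheory FourierTransform Filter Topology Pool.Agent.MBS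
open scoped ENNReal NNReal

theorem result :
    (∃ C : ℝ≥0, ∀ (g : E 2 → ℂ) (x0 : E 2), Measurable g →
      ∫⁻ x in Metric.closedBall x0 1,
          (⨆ (R : ℝ) (_ : 0 < R), ‖∫ ξ in Metric.closedBall (0 : E 2) R, g ξ * ex x ξ‖ₑ) ^ 2 ≤
        C * ∫⁻ ξ, ‖g ξ‖ₑ ^ 2 * ENNReal.ofReal (Real.log (3 + Real.log (3 + ‖ξ‖)) ^ 12)) ∧
    ∀ f : E 2 → ℂ, Measurable f → Integrable f → MemLp f 2 →
      ∫⁻ ξ, ‖𝓕 f ξ‖ₑ ^ 2 * ENNReal.ofReal (Real.log (3 + Real.log (3 + ‖ξ‖)) ^ 11) ≠ ⊤ →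
      ∀ᵐ x, Tendsto (fun R : ℝ => S f R x) atTop (𝓝 (f x)) := by
  refine ⟨?_, fun f h1 h2 h3 h4 => Pool.Agent.LLog.fFA3w f h1 h2 h3 h4⟩
  obtain ⟨C, hC⟩ := Pool.Agent.SEnd.fFA1s
  exact ⟨C, fun g x0 hg => hC g x0 hg⟩

end Pool.Agent.Results.MP_ee701d_an.LogLogLocal
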