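import Pool.Agent.SLog.All
import Pool.Agent.CFS.All2

set_option autoImplicit false

/-! MP_ee701d_an: in the plane, the maximal operator `sup_{R ∈ A} |S_R f|` over a set `A` of radii
with relative gaps at least `δ` is bounded on `L²` with norm at most
`C (log(3 + log(1/δ)))⁶`; and the same for the circular partial sums of double Fourier series: with
`L(t) = log(3 + log(3 + t))`, `∫_{[0,1)²} sup_R |T_R f|² / L(R)^a ≤ C ∑ |f^(n)|² L(|n|)^(12-a)` for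
`0 ≤ a ≤ 12`, and `T_R f(x) - f(x) = o(L(R)^(a/2))` for almost every `x` if the right side is
finite. -/

namespace Pool.Agent.Results.MP_ee701d_an.LogLogSeparated

open MeasureTheory Filter Topology Pool.Agent.MBS
open scoped ENNReal NNReal

/-- the lattice point `n` as a vector of `ℝ²` -/
noncomputable def lat (n : Fin 2 → ℤ) : E 2 := WithLp.toLp 2 (fun i => (n i : ℝ))

/-- the unit square `[0,1)²` -/
def Q : Set (E 2) := {x | ∀ i, x i ∈ Set.Ico (0 : ℝ) 1}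

/-- the Fourier coefficient `f^(n) = ∫_Q f(x) e^{-2πi n·x} dx` -/
noncomputable def co (f : E 2 → ℂ) (n : Fin 2 → ℤ) : ℂ := ∫ x in Q, f x * ex x (-lat n)

/-- the circular partial sum `∑_{|n| ≤ R} f^(n) e^{2πi n·x}` -/
noncomputable def CR (f : E 2 → ℂ) (R : ℝ) (x : E 2) : ℂ :=
  ∑ᶠ (n : Fin 2 → ℤ) (_ : ‖lat n‖ ≤ R), co f n * ex x (lat n)

/-- the weight `L(t)^a`, `L(t) = log(3 + log(3 + t))` -/
noncomputable def w (a t : ℝ) : ℝ≥0∞ := ENNReal.ofReal (Real.log (3 + Real.log (3 + t)) ^ a)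

theorem result :
    (∃ C : ℝ≥0, ∀ (δ : ℝ) (A : Set ℝ) (f : E 2 → ℂ), 0 < δ → δ ≤ 1 / 2 →
      (∀ R ∈ A, 0 < R) → (∀ R ∈ A, ∀ R' ∈ A, R < R' → R + δ * R' ≤ R') →
      Measurable f → Integrable f → MemLp f 2 →
      ∫⁻ x, (⨆ R ∈ A, ‖S f R x‖ₑ) ^ 2 ≤
        C * ENNReal.ofReal (Real.log (3 + Real.log δ⁻¹) ^ 12) * ∫⁻ x, ‖f x‖ₑ ^ 2) ∧
    ∃ C : ℝ≥0, ∀ (a : ℝ) (f : E 2 → ℂ), 0 ≤ a → a ≤ 12 → Measurable f →
      (∀ (x : E 2) (k : Fin 2 → ℤ), f (x + lat k) = f x) → ∫⁻ x in Q, ‖f x‖ₑ ^ 2 ≠ ⊤ →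
      ∫⁻ x in Q, (⨆ (R : ℝ) (_ : 0 < R), ‖CR f R x‖ₑ ^ 2 / w a R) ≤
        C * ∑' n, ‖co f n‖ₑ ^ 2 * w (12 - a) ‖lat n‖ ∧
      (∑' n, ‖co f n‖ₑ ^ 2 * w (12 - a) ‖lat n‖ ≠ ⊤ →
        ∀ᵐ x : E 2, Tendsto (fun R : ℝ =>
          ‖CR f R x - f x‖ / Real.log (3 + Real.log (3 + R)) ^ (a / 2)) atTop (𝓝 0)) := by
  refine ⟨Pool.Agent.SEnd.fDSs, ?_⟩
  obtain ⟨C, hC⟩ := Pool.Agent.CFS.fGTF Pool.Agent.SEnd.fDSs
  refine ⟨C, fun a f ha ha' hm hp hf => ⟨hC a f ha ha' ⟨hm, hp, hf⟩, fun hs => ?_⟩⟩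
  exact Pool.Agent.CFS.fGTA Pool.Agent.SEnd.fDSs a f ha ha' ⟨hm, hp, hf⟩ hs

end Pool.Agent.Results.MP_ee701d_an.LogLogSeparated
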