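import Pool.Agent.SLog.All

set_option autoImplicit false

/-! MP_ee701d_an: in the plane, the maximal operator `sup_{R ∈ A} |S_R f|` over a set `A` of radii
with relative gaps at least `δ` is bounded on `L²` with norm at most
`C (log(3 + log(1/δ)))⁶`. -/

namespace Pool.Agent.Results.MP_ee701d_an.LogLogSeparated

open MeasureTheory Pool.Agent.MBS
open scoped ENNReal NNReal

theorem result : ∃ C : ℝ≥0, ∀ (δ : ℝ) (A : Set ℝ) (f : E 2 → ℂ), 0 < δ → δ ≤ 1 / 2 →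
    (∀ R ∈ A, 0 < R) → (∀ R ∈ A, ∀ R' ∈ A, R < R' → R + δ * R' ≤ R') →
    Measurable f → Integrable f → MemLp f 2 →
    ∫⁻ x, (⨆ R ∈ A, ‖S f R x‖ₑ) ^ 2 ≤
      C * ENNReal.ofReal (Real.log (3 + Real.log δ⁻¹) ^ 12) * ∫⁻ x, ‖f x‖ₑ ^ 2 :=
  Pool.Agent.SEnd.fDSs

end Pool.Agent.Results.MP_ee701d_an.LogLogSeparated
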