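import Pool.Agent.MBS.All

set_option autoImplicit false

/-! MP_ee701d_an: `‖S^* f‖₂² ≤ C(n) ‖f‖₂²` for all nonnegative integrable `f` on `ℝⁿ` whose
superlevel sets `{f > l}`, `l > 0`, are convex (quasi-concave functions): indicator functions of
convex sets of finite volume, of any shape and eccentricity, log-concave functions, and so on. -/

namespace Pool.Agent.Results.MP_ee701d_an.QuasiConcave

open MeasureTheory Pool.Agent.MBS
open scoped ENNReal NNReal

theorem result (n : ℕ) : ∃ C : ℝ≥0, ∀ f : E n → ℝ, Measurable f → Integrable f →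
    (∀ x, 0 ≤ f x) → (∀ l : ℝ, 0 < l → Convex ℝ {x | l < f x}) →
    ∫⁻ x, Sstar (fun y => (f y : ℂ)) x ^ 2 ≤ C * ∫⁻ x, ENNReal.ofReal (f x) ^ 2 :=
  fV n

end Pool.Agent.Results.MP_ee701d_an.QuasiConcave
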