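import Pool.Agent.CYL.All

set_option autoImplicit false

/-! MP_ee701d_an, all dimensions `n ≥ 2`, all `f ∈ L¹ ∩ L²`: ball partial sums with a choice `R(x)` of the radius which is,
up to `A/|x - p|`, a function of the distance of `x` to an affine subspace `p + W ≠ ℝⁿ` (`W = 0`: a radial choice);
convergence in `L²` of almost every sphere. -/

namespace Pool.Agent.Results.MP_ee701d_an.RadialChoice

open MeasureTheory FourierTransform Filter Topology Pool.Agent.MBS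
open scoped ENNReal NNReal

/-- the surface measure of the unit sphere of `ℝⁿ` -/
noncomputable def sigma (n : ℕ) : Measure (Metric.sphere (0 : E n) 1) :=
  (volume : Measure (E n)).toSphere

theorem result :
    (∀ n : ℕ, 2 ≤ n → ∃ C : ℝ≥0, ∀ (W : Submodule ℝ (E n)) (p : E n) (A : ℝ) (f : E n → ℂ)
      (R : E n → ℝ) (R₀ : ℝ → ℝ), W ≠ ⊤ → 0 ≤ A → Measurable f → Integrable f → MemLp f 2 →
      Measurable R → (∀ x, 0 < R x) → Measurable R₀ → (∀ r, 0 < R₀ r) →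
      (∀ x, x ≠ p → |R x - R₀ (Metric.infDist (x - p) (W : Set (E n)))| ≤ A / ‖x - p‖) →
      ∫⁻ x, ‖S f (R x) x‖ₑ ^ 2 ≤ C * ENNReal.ofReal (Real.log (2 + A) ^ 2) * ∫⁻ x, ‖f x‖ₑ ^ 2) ∧
    (∀ n : ℕ, 2 ≤ n → ∃ C : ℝ≥0, ∀ f : E n → ℂ, Measurable f → Integrable f → MemLp f 2 →
      (∫⁻ r in Set.Ioi (0 : ℝ),
        (⨆ (R : ℝ) (_ : 0 < R), ∫⁻ w, ‖S f R (r • (w : E n))‖ₑ ^ 2 ∂(sigma n)) *
          ENNReal.ofReal (r ^ (n - 1)) ≤ C * ∫⁻ x, ‖f x‖ₑ ^ 2) ∧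
      ∀ᵐ r ∂(volume.restrict (Set.Ioi (0 : ℝ))),
        Tendsto (fun R : ℝ => ∫⁻ w, ‖S f R (r • (w : E n)) - f (r • (w : E n))‖ₑ ^ 2 ∂(sigma n))
          atTop (𝓝 0)) := by
  refine ⟨fun n hn => ?_, fun n hn => ?_⟩
  · obtain ⟨C, hC⟩ := Pool.Agent.CYL.q_CYL Pool.Agent.CRR.q_CARLS n hn
    exact ⟨C, fun W p A f R R₀ hW hA h1 h2 h3 hR hR0 h4 h5 h =>
      hC W p A f R R₀ hW hA ⟨h1, h2, h3⟩ hR hR0 h4 h5 h⟩
  · obtain ⟨C, hC⟩ := Pool.Agent.CRR.q_RAD Pool.Agent.CRR.q_CARLS n hn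
    refine ⟨C, fun f h1 h2 h3 => ⟨hC f ⟨h1, h2, h3⟩, ?_⟩⟩
    exact Pool.Agent.CRR.q_RAE Pool.Agent.CRR.q_CARLS n f hn ⟨h1, h2, h3⟩

end Pool.Agent.Results.MP_ee701d_an.RadialChoice
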